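import Pool.Agent.Helper57.TX.Defs

/-!
# TX: block A11 (`good`), the error term of the counting function is `-PP + O(M)` off a small set
-/

set_option autoImplicit false
open MeasureTheory Set Filter Topology
open Pool.Agent.Helper57.TX (JJ PP)
open Pool.Agent.Helper54.LG (za zb qk SS MM)
open Pool.Agent.Helper93.UG (zc sp)
open Pool.Agent.Helper69.UG (XX near far)
open Pool.Agent.Helper49.SO (Sn DS kX Pr)


namespace Pool.Agent.Helper87.TX

/-- Markov's inequality -/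
lemma markov {J : Set ℝ} (hJ : MeasurableSet J) {f : ℝ → ℝ} (hf : IntegrableOn f J) (h0 : ∀ t, 0 ≤ f t) {a B : ℝ} (ha : 0 < a)
    (hB : ∫ t in J, f t ≤ a * B) : volume {t : ℝ | t ∈ J ∧ a < f t} ≤ ENNReal.ofReal B := by
  have h1 : volume {t : ℝ | t ∈ J ∧ a < f t} ≤ (volume.restrict J) {t : ℝ | ENNReal.ofReal a ≤ ENNReal.ofReal (f t)} := by
    rw [Measure.restrict_apply' hJ]
    refine measure_mono fun t ht => ⟨?_, ht.1⟩
    exact ENNReal.ofReal_le_ofReal ht.2.le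
  have h2 : ENNReal.ofReal a * (volume.restrict J) {t : ℝ | ENNReal.ofReal a ≤ ENNReal.ofReal (f t)} ≤
      ∫⁻ t in J, ENNReal.ofReal (f t) :=
    mul_meas_ge_le_lintegral₀ hf.aemeasurable.ennreal_ofReal _
  rw [← ofReal_integral_eq_lintegral_ofReal hf (ae_of_all _ h0)] at h2
  have h3 : ENNReal.ofReal a * (volume.restrict J) {t : ℝ | ENNReal.ofReal a ≤ ENNReal.ofReal (f t)} ≤
      ENNReal.ofReal a * ENNReal.ofReal B := by
    rw [← ENNReal.ofReal_mul ha.le]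
    exact h2.trans (ENNReal.ofReal_le_ofReal hB)
  have ha' : ENNReal.ofReal a ≠ 0 := by
    rw [Ne, ENNReal.ofReal_eq_zero, not_le]
    exact ha
  exact h1.trans ((ENNReal.mul_le_mul_iff_right ha' ENNReal.ofReal_ne_top).1 h3)

theorem good_of
    (h1 : ∃ C k T₀ : ℝ, 0 < C ∧ 0 < k ∧ ∀ T M Y y : ℝ, T₀ ≤ T → 16 ≤ M → M ≤ Real.log T → 0 < Y → Y ≤ k * M →
      T / 2 ≤ y → y ≤ 4 * T → |Sn y + 2 * Pr (XX T M) y - Pr (XX T (2 * M)) y| ≤ C * (M + |SS (XX T M) y| + far T M Y y))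
    (h2 : ∃ C Y₀ T₀ : ℝ, 0 < C ∧ ∀ T M Y : ℝ, T₀ ≤ T → 16 ≤ M → M ≤ Real.log T → Y₀ ≤ Y →
      IntegrableOn (far T M Y) (JJ T) ∧ ∫ t in JJ T, far T M Y t ≤ C * M * Real.exp (-(Y / 8)) * T)
    (h8 : ∃ κ M₀ T₀ : ℝ, 0 < κ ∧ 1 ≤ M₀ ∧ ∀ T M : ℝ, T₀ ≤ T → M₀ ≤ M → M ≤ Real.log T →
      volume {t : ℝ | t ∈ JJ T ∧ M < |SS (XX T M) t|} ≤ ENNReal.ofReal (Real.exp (-(κ * M)) * T)) :
    ∃ C κ M₀ T₀ : ℝ, 0 < C ∧ 0 < κ ∧ 1 ≤ M₀ ∧ ∀ T M : ℝ, T₀ ≤ T → M₀ ≤ M → M ≤ Real.log T →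
      volume {t : ℝ | t ∈ JJ T ∧ C * M < |Sn t + PP (XX T M) t|} ≤ ENNReal.ofReal (C * Real.exp (-(κ * M)) * T) := by
  obtain ⟨C1, k, T1, hC1, hk, h1⟩ := h1
  obtain ⟨C2, Y0, T2, hC2, h2⟩ := h2
  obtain ⟨κ, M8, T8, hκ, hM8, h8⟩ := h8
  refine ⟨3 * C1 + C2 + 1, min κ (k / 8), max (max 16 M8) (Y0 / k), max (max T1 T2) (max T8 1), by positivity, by positivity,
    le_max_of_le_left (le_max_of_le_left (by norm_num)), ?_⟩
  intro T M hT hM hMT
  simp only [max_le_iff] at hT hM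
  obtain ⟨⟨hT1, hT2⟩, hT8, hT0⟩ := hT
  obtain ⟨⟨hM16, hMM8⟩, hMY⟩ := hM
  have hM0 : 0 < M := by linarith
  have hY0 : Y0 ≤ k * M := by
    rw [div_le_iff₀ hk] at hMY
    linarith
  obtain ⟨i2, b2⟩ := h2 T M (k * M) hT2 hM16 hMT hY0
  have b8 := h8 T M hT8 hMM8 hMT
  have hJ : MeasurableSet (JJ T) := measurableSet_Icc
  have hf0 : ∀ t, 0 ≤ far T M (k * M) t := fun t => Pool.Agent.Helper87.UG.far_nonneg T M (k * M) t
  have m2 : volume {t : ℝ | t ∈ JJ T ∧ M < far T M (k * M) t} ≤ ENNReal.ofReal (C2 * Real.exp (-(k * M / 8)) * T) :=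
    markov hJ i2 hf0 hM0 (b2.trans (le_of_eq (by ring)))
  have hsub : {t : ℝ | t ∈ JJ T ∧ (3 * C1 + C2 + 1) * M < |Sn t + PP (XX T M) t|} ⊆
      {t : ℝ | t ∈ JJ T ∧ M < |SS (XX T M) t|} ∪ {t : ℝ | t ∈ JJ T ∧ M < far T M (k * M) t} := by
    rintro t ⟨ht, hb⟩
    by_contra hcon
    simp only [mem_union, mem_setOf_eq, not_or, not_and, not_lt] at hcon
    have c1 := hcon.1 ht
    have c2 := hcon.2 ht
    have c3 := h1 T M (k * M) t hT1 hM16 hMT (by positivity) le_rfl ht.1 ht.2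
    have c4 : Sn t + 2 * Pr (XX T M) t - Pr (XX T (2 * M)) t = Sn t + PP (XX T M) t := by
      unfold PP XX
      rw [show Real.log T / (2 * M) = Real.log T / M / 2 by
        rw [mul_comm, ← div_div]]
      ring
    rw [c4] at c3
    have c5 : C1 * (M + |SS (XX T M) t| + far T M (k * M) t) ≤ C1 * (M + M + M) :=
      mul_le_mul_of_nonneg_left (by linarith) hC1.le
    nlinarith
  refine (measure_mono hsub).trans ((measure_union_le _ _).trans ((add_le_add b8 m2).trans ?_))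
  rw [← ENNReal.ofReal_add (by positivity) (by positivity)]
  apply ENNReal.ofReal_le_ofReal
  have e1 : Real.exp (-(κ * M)) ≤ Real.exp (-(min κ (k / 8) * M)) := by
    apply Real.exp_le_exp.2
    have := mul_le_mul_of_nonneg_right (min_le_left κ (k / 8)) hM0.le
    linarith
  have e2 : Real.exp (-(k * M / 8)) ≤ Real.exp (-(min κ (k / 8) * M)) := by
    apply Real.exp_le_exp.2
    have := mul_le_mul_of_nonneg_right (min_le_right κ (k / 8)) hM0.le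
    linarith
  have e3 := Real.exp_pos (-(min κ (k / 8) * M))
  calc Real.exp (-(κ * M)) * T + C2 * Real.exp (-(k * M / 8)) * T ≤
        Real.exp (-(min κ (k / 8) * M)) * T + C2 * Real.exp (-(min κ (k / 8) * M)) * T := by gcongr
    _ = (1 + C2) * (Real.exp (-(min κ (k / 8) * M)) * T) := by ring
    _ ≤ (3 * C1 + C2 + 1) * (Real.exp (-(min κ (k / 8) * M)) * T) :=
        mul_le_mul_of_nonneg_right (by linarith) (by positivity)
    _ = _ := by ring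

end Pool.Agent.Helper87.TX
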